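import Mathlib

open MeasureTheory Set Filter Topology
open scoped ENNReal Pointwise

namespace Pool.Agent.Helper65.Mahler

lemma bm_one_compact {A B S : Set ℝ} (hA : IsCompact A) (hB : IsCompact B) (hAn : A.Nonempty)
    (hBn : B.Nonempty) (h : ∀ a ∈ A, ∀ b ∈ B, (a + b) / 2 ∈ S) :
    volume A + volume B ≤ 2 * volume S := by
  obtain ⟨α, hα⟩ := hA.exists_isGreatest hAn
  obtain ⟨β, hβ⟩ := hB.exists_isLeast hBn
  let S₁ : Set ℝ := (2 * ·) ⁻¹' ((fun x => x + (-β)) ⁻¹' A)
  let S₂ : Set ℝ := (2 * ·) ⁻¹' ((fun x => x + (-α)) ⁻¹' B)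
  have hS₁v : volume S₁ = ENNReal.ofReal (1 / 2) * volume A := by
    simp only [S₁]
    rw [Real.volume_preimage_mul_left (by norm_num), measure_preimage_add_right]
    norm_num
  have hS₂v : volume S₂ = ENNReal.ofReal (1 / 2) * volume B := by
    simp only [S₂]
    rw [Real.volume_preimage_mul_left (by norm_num), measure_preimage_add_right]
    norm_num
  have hS₂m : MeasurableSet S₂ :=
    measurableSet_preimage (measurable_const_mul 2) (measurableSet_preimage (measurable_add_const _)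
      hB.measurableSet)
  have hdisj : Disjoint S₁ (S₂ \ {(α + β) / 2}) := by
    rw [Set.disjoint_left]
    intro m hm1 hm2
    have h1 : 2 * m + -β ≤ α := hα.2 hm1
    have h2 : β ≤ 2 * m + -α := hβ.2 hm2.1
    apply hm2.2
    rw [mem_singleton_iff]
    linarith
  have hunion : S₁ ∪ (S₂ \ {(α + β) / 2}) ⊆ S := by
    rintro m (hm | hm)
    · have h1 := h _ hm β hβ.1
      have h2 : (2 * m + -β + β) / 2 = m := by ring
      rwa [h2] at h1
    · have h1 := h α hα.1 _ hm.1
      have h2 : (α + (2 * m + -α)) / 2 = m := by ring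
      rwa [h2] at h1
  have h3 : volume S₁ + volume S₂ ≤ volume S := by
    calc volume S₁ + volume S₂ = volume S₁ + volume (S₂ \ {(α + β) / 2}) := by
          rw [measure_sdiff_null (measure_singleton _)]
      _ = volume (S₁ ∪ (S₂ \ {(α + β) / 2})) :=
          (measure_union hdisj (hS₂m.diff (measurableSet_singleton _))).symm
      _ ≤ volume S := measure_mono hunion
  rw [hS₁v, hS₂v, ← mul_add] at h3
  have h4 : (2 : ℝ≥0∞) * ENNReal.ofReal (1 / 2) = 1 := by
    rw [one_div, ENNReal.ofReal_inv_of_pos (by norm_num)]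
    norm_num
    exact ENNReal.mul_inv_cancel (by norm_num) (by norm_num)
  calc volume A + volume B = 2 * (ENNReal.ofReal (1 / 2) * (volume A + volume B)) := by
        rw [← mul_assoc, h4, one_mul]
    _ ≤ 2 * volume S := by gcongr

/-- One-dimensional Brunn–Minkowski inequality. -/
lemma bm_one {A B S : Set ℝ} (hA : MeasurableSet A) (hB : MeasurableSet B) (hAn : A.Nonempty)
    (hBn : B.Nonempty) (h : ∀ a ∈ A, ∀ b ∈ B, (a + b) / 2 ∈ S) :
    volume A + volume B ≤ 2 * volume S := by
  obtain ⟨a₀, ha₀⟩ := hAn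
  obtain ⟨b₀, hb₀⟩ := hBn
  have key : ∀ K, (K ⊆ A ∧ IsCompact K) → ∀ L, (L ⊆ B ∧ IsCompact L) →
      volume K + volume L ≤ 2 * volume S := by
    intro K hK L hL
    have h1 := bm_one_compact (S := S) (hK.2.insert a₀) (hL.2.insert b₀) ⟨a₀, mem_insert _ _⟩
      ⟨b₀, mem_insert _ _⟩ (fun a ha b hb => h a (by
        rcases ha with rfl | ha
        · exact ha₀
        · exact hK.1 ha) b (by
        rcases hb with rfl | hb
        · exact hb₀
        · exact hL.1 hb))
    refine le_trans ?_ h1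
    gcongr
    · exact subset_insert _ _
    · exact subset_insert _ _
  have hA' : volume A = ⨆ (K : Set ℝ) (_ : K ⊆ A ∧ IsCompact K), volume K := by
    rw [hA.measure_eq_iSup_isCompact]
    simp only [iSup_and]
  have hB' : volume B = ⨆ (K : Set ℝ) (_ : K ⊆ B ∧ IsCompact K), volume K := by
    rw [hB.measure_eq_iSup_isCompact]
    simp only [iSup_and]
  rw [hA', hB']
  exact ENNReal.biSup_add_biSup_le' ⟨∅, empty_subset _, isCompact_empty⟩
    ⟨∅, empty_subset _, isCompact_empty⟩ key

/-- Normalized one-dimensional Prékopa–Leindler inequality. -/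
lemma pl_normalized {f g h : ℝ → ℝ} (hf : Measurable f) (hg : Measurable g) (hh : Measurable h)
    (hf0 : ∀ a, 0 ≤ f a) (hg0 : ∀ a, 0 ≤ g a) (hh0 : ∀ a, 0 ≤ h a)
    (hf1 : ∀ a, f a ≤ 1) (hg1 : ∀ a, g a ≤ 1) (hfs : ∀ t < 1, ∃ a, t < f a)
    (hgs : ∀ t < 1, ∃ a, t < g a) (hfgh : ∀ a b, f a * g b ≤ h ((a + b) / 2) ^ 2) :
    (∫⁻ a, ENNReal.ofReal (f a)) + (∫⁻ a, ENNReal.ofReal (g a)) ≤
      2 * ∫⁻ a, ENNReal.ofReal (h a) := by
  have hlevel : ∀ {u : ℝ → ℝ}, Measurable u → (∀ a, 0 ≤ u a) → (∀ a, u a ≤ 1) →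
      ∫⁻ a, ENNReal.ofReal (u a) = ∫⁻ t in Ioo (0 : ℝ) 1, volume {a : ℝ | t < u a} := by
    intro u hu hu0 hu1
    rw [lintegral_eq_lintegral_meas_lt volume (Filter.Eventually.of_forall hu0) hu.aemeasurable]
    rw [← lintegral_indicator measurableSet_Ioi, ← lintegral_indicator measurableSet_Ioo]
    refine lintegral_congr fun t => ?_
    by_cases ht : t ∈ Ioo (0 : ℝ) 1
    · rw [indicator_of_mem ht, indicator_of_mem (Ioo_subset_Ioi_self ht)]
    · rw [indicator_of_notMem ht]
      by_cases ht' : t ∈ Ioi (0 : ℝ)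
      · rw [indicator_of_mem ht']
        have h1 : 1 ≤ t := by
          by_contra hlt
          push Not at hlt
          exact ht ⟨ht', hlt⟩
        have h2 : {a : ℝ | t < u a} = ∅ := by
          ext a
          simp only [mem_ofPred_eq, mem_empty_iff_false, iff_false, not_lt]
          exact (hu1 a).trans h1
        rw [h2, measure_empty]
      · rw [indicator_of_notMem ht']
  have hh' : ∫⁻ t in Ioo (0 : ℝ) 1, volume {a : ℝ | t < h a} ≤ ∫⁻ a, ENNReal.ofReal (h a) := by
    rw [lintegral_eq_lintegral_meas_lt volume (Filter.Eventually.of_forall hh0) hh.aemeasurable]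
    exact lintegral_mono_set Ioo_subset_Ioi_self
  rw [hlevel hf hf0 hf1, hlevel hg hg0 hg1]
  refine le_trans ?_ (mul_le_mul_right hh' 2)
  have hmeas : ∀ {u : ℝ → ℝ}, Measurable fun t : ℝ => volume {a : ℝ | t < u a} := by
    intro u
    apply Antitone.measurable
    intro s t hst
    exact measure_mono fun a (ha : t < u a) => lt_of_le_of_lt hst ha
  rw [← lintegral_add_left hmeas, ← lintegral_const_mul _ hmeas]
  refine setLIntegral_mono' measurableSet_Ioo fun t ht => ?_
  apply bm_one (hf measurableSet_Ioi) (hg measurableSet_Ioi) (hfs t ht.2) (hgs t ht.2)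
  intro a ha b hb
  have h1 := hfgh a b
  have ha' : t < f a := ha
  have hb' : t < g b := hb
  have h2 : t ^ 2 < h ((a + b) / 2) ^ 2 := by
    have h3 : t * t < f a * g b := mul_lt_mul'' ha' hb' ht.1.le ht.1.le
    nlinarith
  exact lt_of_pow_lt_pow_left₀ 2 (hh0 _) h2

lemma mul_le_sq_of_add_le {x y z : ℝ≥0∞} (h : x + y ≤ 2 * z) : x * y ≤ z ^ 2 := by
  rcases eq_or_ne z ∞ with hz | hz
  · rw [hz]
    simp
  · have h1 : x + y ≠ ∞ := (h.trans_lt (ENNReal.mul_lt_top (by simp) (lt_top_iff_ne_top.mpr hz))).ne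
    have hx : x ≠ ∞ := fun hx => h1 (by rw [hx]; simp)
    have hy : y ≠ ∞ := fun hy => h1 (by rw [hy]; simp)
    lift x to NNReal using hx
    lift y to NNReal using hy
    lift z to NNReal using hz
    norm_cast at h ⊢
    have h2 : (x : ℝ) + y ≤ 2 * z := by exact_mod_cast h
    have h3 : (x : ℝ) * y ≤ z ^ 2 := by
      have hx0 : (0 : ℝ) ≤ x := x.coe_nonneg
      have hy0 : (0 : ℝ) ≤ y := y.coe_nonneg
      nlinarith [sq_nonneg ((x : ℝ) - y)]
    exact_mod_cast h3

/-- One-dimensional Prékopa–Leindler inequality (bounded functions). -/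
lemma pl_one {f g h : ℝ → ℝ} {C : ℝ} (hf : Measurable f) (hg : Measurable g) (hh : Measurable h)
    (hf0 : ∀ a, 0 ≤ f a) (hg0 : ∀ a, 0 ≤ g a) (hh0 : ∀ a, 0 ≤ h a)
    (hf1 : ∀ a, f a ≤ C) (hg1 : ∀ a, g a ≤ C) (hfgh : ∀ a b, f a * g b ≤ h ((a + b) / 2) ^ 2) :
    (∫⁻ a, ENNReal.ofReal (f a)) * (∫⁻ a, ENNReal.ofReal (g a)) ≤
      (∫⁻ a, ENNReal.ofReal (h a)) ^ 2 := by
  have hfb : BddAbove (range f) := ⟨C, by rintro _ ⟨a, rfl⟩; exact hf1 a⟩
  have hgb : BddAbove (range g) := ⟨C, by rintro _ ⟨a, rfl⟩; exact hg1 a⟩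
  set F : ℝ := ⨆ a, f a with hF
  set G : ℝ := ⨆ a, g a with hG
  have hfF : ∀ a, f a ≤ F := fun a => le_ciSup hfb a
  have hgG : ∀ a, g a ≤ G := fun a => le_ciSup hgb a
  have hF0 : 0 ≤ F := (hf0 0).trans (hfF 0)
  have hG0 : 0 ≤ G := (hg0 0).trans (hgG 0)
  rcases hF0.eq_or_lt with h0 | hFpos
  · have : ∀ a, f a = 0 := fun a => le_antisymm (by rw [h0]; exact hfF a) (hf0 a)
    simp [this]
  rcases hG0.eq_or_lt with h0 | hGpos
  · have : ∀ a, g a = 0 := fun a => le_antisymm (by rw [h0]; exact hgG a) (hg0 a)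
    simp [this]
  set r : ℝ := √(F * G) with hr
  have hr0 : 0 < r := Real.sqrt_pos.mpr (by positivity)
  have hr2 : r ^ 2 = F * G := Real.sq_sqrt (by positivity)
  have hnorm := pl_normalized (f := fun a => f a / F) (g := fun a => g a / G) (h := fun a => h a / r)
    (hf.div_const F) (hg.div_const G) (hh.div_const r) (fun a => by have := hf0 a; positivity)
    (fun a => by have := hg0 a; positivity) (fun a => by have := hh0 a; positivity)
    (fun a => (div_le_one hFpos).mpr (hfF a)) (fun a => (div_le_one hGpos).mpr (hgG a))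
    (fun t ht => by
      obtain ⟨a, ha⟩ := exists_lt_of_lt_ciSup (show t * F < ⨆ a, f a by rw [← hF]; nlinarith)
      exact ⟨a, (lt_div_iff₀ hFpos).mpr ha⟩)
    (fun t ht => by
      obtain ⟨a, ha⟩ := exists_lt_of_lt_ciSup (show t * G < ⨆ a, g a by rw [← hG]; nlinarith)
      exact ⟨a, (lt_div_iff₀ hGpos).mpr ha⟩)
    (fun a b => by
      rw [div_mul_div_comm, div_pow, hr2]
      exact div_le_div_of_nonneg_right (hfgh a b) (by positivity))
  have h1 := mul_le_sq_of_add_le hnorm
  have hscale : ∀ (u : ℝ → ℝ) (c : ℝ), 0 < c → Measurable u →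
      ∫⁻ a, ENNReal.ofReal (u a) = ENNReal.ofReal c * ∫⁻ a, ENNReal.ofReal (u a / c) := by
    intro u c hc hu
    rw [← lintegral_const_mul _ (hu.div_const c).ennreal_ofReal]
    refine lintegral_congr fun a => ?_
    rw [← ENNReal.ofReal_mul hc.le]
    congr 1
    field_simp
  rw [hscale f F hFpos hf, hscale g G hGpos hg, hscale h r hr0 hh]
  calc _ = (ENNReal.ofReal F * ENNReal.ofReal G) * ((∫⁻ a, ENNReal.ofReal (f a / F)) *
        (∫⁻ a, ENNReal.ofReal (g a / G))) := by ring
    _ ≤ (ENNReal.ofReal F * ENNReal.ofReal G) * (∫⁻ a, ENNReal.ofReal (h a / r)) ^ 2 := by gcongr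
    _ = _ := by
      rw [← ENNReal.ofReal_mul hFpos.le, ← hr2, ENNReal.ofReal_pow hr0.le, mul_pow]

/-- The box. -/
def box (n : ℕ) (R : ℝ) : Set (Fin n → ℝ) := {x | ∀ i, x i ∈ Icc (-R) R}

lemma volume_box_lt_top (n : ℕ) (R : ℝ) : volume (box n R) < ∞ := by
  have h1 : box n R = Set.pi univ fun _ => Icc (-R) R := by
    ext x
    simp only [box, mem_ofPred_eq, Set.mem_pi, mem_univ, true_implies]
  rw [h1]
  exact (isCompact_univ_pi fun _ => isCompact_Icc).measure_lt_top

/-- **Brunn–Minkowski inequality**, multiplicative form, for bounded sets. -/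
theorem brunn_minkowski : ∀ (n : ℕ) (R : ℝ) (A B S : Set (Fin n → ℝ)), MeasurableSet A →
    MeasurableSet B → MeasurableSet S → A ⊆ box n R → B ⊆ box n R → S ⊆ box n R →
    (∀ a ∈ A, ∀ b ∈ B, (1 / 2 : ℝ) • (a + b) ∈ S) → volume A * volume B ≤ volume S ^ 2 := by
  intro n
  induction n with
  | zero =>
    intro R A B S _ _ _ _ _ _ h
    rcases A.eq_empty_or_nonempty with rfl | ⟨a, ha⟩
    · simp
    rcases B.eq_empty_or_nonempty with rfl | ⟨b, hb⟩
    · simp
    have hS : S = univ := by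
      ext x
      simp only [mem_univ, iff_true]
      have := h a ha b hb
      rwa [Subsingleton.elim ((1 / 2 : ℝ) • (a + b)) x] at this
    rw [sq, hS]
    gcongr <;> exact subset_univ _
  | succ n ih =>
    intro R A B S hA hB hS hAR hBR hSR h
    let e := MeasurableEquiv.piFinSuccAbove (fun _ : Fin (n + 1) => ℝ) 0
    have he0 : ∀ (a : ℝ) (v : Fin n → ℝ), e.symm (a, v) 0 = a := by
      intro a v
      simp [e]
    have hes : ∀ (a : ℝ) (v : Fin n → ℝ) (i : Fin n), e.symm (a, v) i.succ = v i := by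
      intro a v i
      simp [e]
    -- sections
    let sec : Set (Fin (n + 1) → ℝ) → ℝ → Set (Fin n → ℝ) :=
      fun T a => Prod.mk a ⁻¹' (e.symm ⁻¹' T)
    have hvol : ∀ T : Set (Fin (n + 1) → ℝ), MeasurableSet T →
        volume T = ∫⁻ a, volume (sec T a) := by
      intro T hT
      have h1 := ((volume_preserving_piFinSuccAbove (fun _ : Fin (n + 1) => ℝ) 0).symm e).measure_preimage
        hT.nullMeasurableSet
      rw [← h1, Measure.volume_eq_prod, Measure.prod_apply (e.symm.measurable hT)]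
    have hsecm : ∀ T : Set (Fin (n + 1) → ℝ), MeasurableSet T → ∀ a, MeasurableSet (sec T a) := by
      intro T hT a
      have h1 : Measurable fun v : Fin n → ℝ => e.symm (a, v) :=
        e.symm.measurable.comp measurable_prodMk_left
      exact h1 hT
    have hsecM : ∀ T : Set (Fin (n + 1) → ℝ), MeasurableSet T →
        Measurable fun a => volume (sec T a) := by
      intro T hT
      exact measurable_measure_prodMk_left (ν := (volume : Measure (Fin n → ℝ)))
        (e.symm.measurable hT)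
    have hsecR : ∀ T : Set (Fin (n + 1) → ℝ), T ⊆ box (n + 1) R → ∀ a, sec T a ⊆ box n R := by
      intro T hT a v hv i
      have := hT hv i.succ
      rwa [hes] at this
    have hfin : ∀ T : Set (Fin (n + 1) → ℝ), T ⊆ box (n + 1) R → ∀ a, volume (sec T a) ≠ ∞ := by
      intro T hT a
      exact ((measure_mono (hsecR T hT a)).trans_lt (volume_box_lt_top n R)).ne
    have hvol' : ∀ T : Set (Fin (n + 1) → ℝ), MeasurableSet T → T ⊆ box (n + 1) R →
        volume T = ∫⁻ a, ENNReal.ofReal (volume (sec T a)).toReal := by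
      intro T hT hTR
      rw [hvol T hT]
      refine lintegral_congr fun a => ?_
      rw [ENNReal.ofReal_toReal (hfin T hTR a)]
    rw [hvol' A hA hAR, hvol' B hB hBR, hvol' S hS hSR]
    apply pl_one (C := (volume (box n R)).toReal) (hsecM A hA).ennreal_toReal
      (hsecM B hB).ennreal_toReal (hsecM S hS).ennreal_toReal (fun a => ENNReal.toReal_nonneg)
      (fun a => ENNReal.toReal_nonneg) (fun a => ENNReal.toReal_nonneg)
    · intro a
      exact ENNReal.toReal_mono (volume_box_lt_top n R).ne (measure_mono (hsecR A hAR a))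
    · intro a
      exact ENNReal.toReal_mono (volume_box_lt_top n R).ne (measure_mono (hsecR B hBR a))
    · intro a b
      have h1 := ih R (sec A a) (sec B b) (sec S ((a + b) / 2)) (hsecm A hA a) (hsecm B hB b)
        (hsecm S hS _) (hsecR A hAR a) (hsecR B hBR b) (hsecR S hSR _) (by
          intro v hv w hw
          have h2 := h _ hv _ hw
          have h3 : (1 / 2 : ℝ) • (e.symm (a, v) + e.symm (b, w)) =
              e.symm ((a + b) / 2, (1 / 2 : ℝ) • (v + w)) := by
            funext i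
            refine Fin.cases ?_ (fun j => ?_) i
            · rw [he0, Pi.smul_apply, Pi.add_apply, he0, he0, smul_eq_mul]
              ring
            · rw [hes, Pi.smul_apply, Pi.add_apply, hes, hes, Pi.smul_apply, Pi.add_apply]
          rw [h3] at h2
          exact h2)
      have h2 := ENNReal.toReal_mono (by
        exact ENNReal.pow_ne_top (hfin S hSR _)) h1
      rwa [ENNReal.toReal_mul, ENNReal.toReal_pow] at h2

end Pool.Agent.Helper65.Mahler
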